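import Pool.Agent.Work.MP_db9399_rg_helper54.RecB

/-!
# MP_db9399, all scales, block RGX4, part RECX (helper54)
-/

set_option autoImplicit false

namespace Pool.Agent.Work.MP_db9399_rg_helper54

open Finset Classical
open Pool.Agent.Work.MP_db9399_all (nb)
open Pool.Agent.Work.MP_db9399_lt (us)
open Pool.Agent.Work.MP_db9399_da (Pcs Ty pV sV Ts sdn ptn sgp sg need thin sid qtr)
open Pool.Agent.Work.MP_db9399_xf
open Pool.Agent.Work.MP_db9399_x4 (ub no so NuN NuB KX4 PreX4)
open Pool.Agent.Work.MP_db9399_iv_helper38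
open Pool.Agent.Work.MP_db9399_rec_helper38
open Pool.Agent.Work.MP_db9399_rg_helper30 (su)

universe u

theorem stmt_RECX : Stmt_RECX.{u} := by
  intro πk C g z τ e M J S c' hC
  obtain ⟨hπ1, hπ2, hC1, _, _, _, _, hτ, _, hc0, hS⟩ := hC
  obtain ⟨d0, hd01, hd0⟩ := large S hS hc0
  refine ⟨d0, ?_⟩
  intro V _ N G d X A t c m m2 pr θk θ' η hd hX hA hP hU
  have hd1 : 1 ≤ d := hd01.trans hd
  have hdR : (1 : ℝ) ≤ d := by exact_mod_cast hd1
  have hdp : (0 : ℝ) < d := by linarith
  have hL := hd0 d hd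
  have hD := hX.toPcD
  have hN := hP.toNuX
  have hK60 : 60 ≤ KX4 C πk := Pool.Agent.Work.MP_db9399_rg_helper30.KX4_ge C πk
  have hπ3 : 0 < 1 - 3 * πk := by linarith
  have hπ4 : 1 - 3 * πk ≤ 1 := by linarith
  set R := RS C πk G d X m m2 pr with hR
  have hRok : R.Ok := rs_ok C πk G d X m m2 pr
  have hcol : R.Col t := rs_col hP.toTcX
  obtain ⟨t1, Tc, hI, hTame⟩ := rec_main hRok hcol
  have heq : ∀ v w, ¬ Te G X v w → t1 v w = t v w := fun v w h => hI.eq v w h
  have hRK : R.K = KX4 C πk := rfl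
  have hRN : R.N = d + 2 := rfl
  -- sizes
  have hθ8 : ∀ n : Fin N, (S (X.sc n)).θ ≤ (1 - 3 * πk) / 10 ^ 8 := fun n => (hS _).θ3
  have hθ8' : ∀ n : Fin N, (S (X.sc n)).θ * d ≤ (1 - 3 * πk) / 10 ^ 8 * d := fun n =>
    mul_le_mul_of_nonneg_right (hθ8 n) hdp.le
  have hsV : ∀ n, X.P.ty n = Ty.B → ∀ β, 1 / 2 * (d : ℝ) ≤ (sV X.P n β).card := by
    intro n hn β
    have h5 := Pool.Agent.Work.MP_db9399_rg_helper42.g1' hD hn β
    have h7 : (S (X.sc n)).ζ ≤ 1 / 2 := (hS _).ζ1.trans (by norm_num)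
    nlinarith
  have hpV : ∀ n, X.P.ty n = Ty.B → ∀ β, ((pV X.P n).card : ℝ) = 2 * (sV X.P n β).card := by
    intro n hn β
    rw [pV_card hD hn β]
    push_cast
    ring
  have hdlt : ∀ n, X.P.ty n = Ty.B → ∀ β b, (dlt G d X m m2 pr n β b : ℝ) ≤
      2 * (d : ℝ) ^ (1 / 200 : ℝ) + (d : ℝ) ^ (-c') * d := fun n hn β b =>
    dlt_le hD hS hd1 hU hP.ms hn β b
  -- phi
  have hphi : ∀ φ : ℕ → ℕ → ℕ, (∀ b x y, x ≤ y → φ b x ≤ φ b y) →
      (∀ b c x y, KX4 C πk ≤ x + 1 → φ c (y + 1) + φ b x ≤ φ b (x + 1) + φ c y) →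
      ∀ n, X.P.ty n = Ty.B → ∀ β,
      ∑ b ∈ range (d + 2), φ b (no G X t1 (dlt G d X m m2 pr) n β b) ≤
        ∑ b ∈ range (d + 2), φ b (no G X t (dlt G d X m m2 pr) n β b) := by
    intro φ h1 h2 n hn β
    have h3 := hI.phi φ h1 h2 (n, β)
    have e : ∀ t', ∑ b ∈ range R.N, φ b (R.nd t' (n, β) b) =
        ∑ b ∈ range (d + 2), φ b (no G X t' (dlt G d X m m2 pr) n β b) := fun t' =>
      sum_congr rfl fun b _ => by rw [hR, nd_no t' hn β b]
    rw [e, e] at h3
    exact h3
  -- the constructor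
  have hTcX : TcX η G d X A t1 := by
    refine ⟨hI.col.sym, hI.col.lt, hI.col.inj, ?_, ?_⟩
    · intro v hv
      rw [Ft_same heq (fun h => by
        have h1 := hv.1.2
        rw [h.2] at h1
        exact absurd h1 (by decide))]
      exact hP.rK v hv
    · intro n hn b
      have h1 := hP.lK n hn b
      have h2 : (pV X.P n).filter (fun v => v ∉ X.Hv ∧ b ∈ Ft (xt G X) t1 v) =
          (pV X.P n).filter (fun v => v ∉ X.Hv ∧ b ∈ Ft (xt G X) t v) := by
        refine filter_congr fun v hv => ?_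
        rw [Pool.Agent.Work.MP_db9399_rg_helper42.mem_pV] at hv
        rw [Ft_same heq (fun h => by
          have h1 := h.2
          rw [hv.2, hn] at h1
          exact absurd h1 (by decide))]
      rw [h2]
      exact h1
  have hV0 : ∀ v, v ∈ X.P.V0 → Ft (xt G X) t1 v = Ft (xt G X) t v := fun v hv =>
    Ft_same heq fun h => h.1 hv
  have hOwX : OwX τ (e / 8) (1 / 250) S G d X t1 c (Ow G X d) := by
    have h := hP.toOwX
    refine ⟨h.clt, h.cc, ?_, h.big, h.sml, h.dif, h.non⟩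
    intro v hv
    rw [hV0 v hv.1]
    exact h.ct v hv
  have hNuN : NuN 100 ((1 - 3 * πk) / 10 ^ 7) S G d X A t1 := by
    have hne : ∀ n, X.P.ty n = Ty.N → X.P.ty n ≠ Ty.B := by
      intro n hn h
      rw [hn] at h
      exact absurd h (by decide)
    constructor
    · intro n hn v
      rw [Fp_same heq (hne n hn)]
      exact hN.rQ n (Or.inl hn) v
    · intro n hn b
      rw [Fp_same heq (hne n hn)]
      exact hN.ld n (Or.inl hn) b
    · intro n hn i
      rw [Fp_same heq (hne n hn)]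
      exact hN.exc n (Or.inl hn) i
    · intro n hn i b hb
      rw [Fp_same heq (hne n hn)]
      exact hP.sup n (Or.inl hn) i b hb
  refine ⟨t1, heq, ?_⟩
  refine ⟨hTcX, hOwX, hNuN, ?_, hP.ms, ?_, ?_, ?_, ?_, ?_, ?_, ?_⟩
  · -- mm
    intro w hw
    obtain ⟨h1, h2, h3⟩ := hP.mm w hw
    refine ⟨h1, ?_, h3⟩
    obtain ⟨n, β, hc⟩ := hw
    rw [hV0 w hc.1]
    exact h2
  · -- rR
    intro n hn j
    have htc : ∀ β, ((Tc (n, β)).card : ℝ) ≤ (1 - 3 * πk) / 12500 * d := by
      intro β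
      have h1 := Imp.tcc hI (n, β)
      have h2 := no_tot (m := m) (m2 := m2) (pr := pr) hD hS hd1 hN hn β
      have h3 : ∑ b ∈ range R.N, R.nd t (n, β) b =
          ∑ b ∈ range (d + 2), no G X t (dlt G d X m m2 pr) n β b :=
        sum_congr rfl fun b _ => by rw [hR, nd_no t hn β b]
      rw [h3, hRK] at h1
      have h4 : ((KX4 C πk - 1 : ℕ) : ℝ) * (Tc (n, β)).card ≤
          ((∑ b ∈ range (d + 2), no G X t (dlt G d X m m2 pr) n β b : ℕ) : ℝ) := by
        exact_mod_cast h1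
      have h5 : 10 ^ 4 * (C + 5) / (1 - 3 * πk) ≤ ((KX4 C πk - 1 : ℕ) : ℝ) := by
        rw [Nat.cast_sub (by omega)]
        have h6 := Nat.le_ceil (10 ^ 4 * (C + 5) / (1 - 3 * πk))
        have h7 : ((KX4 C πk : ℕ) : ℝ) = (⌈10 ^ 4 * (C + 5) / (1 - 3 * πk)⌉₊ : ℝ) + 60 := by
          unfold KX4
          push_cast
          ring
        rw [h7]
        push_cast
        linarith
      have h6 := sV_C hD hn β
      have h7 := hθ8' n
      have h8 : 10 ^ 4 * (C + 5) / (1 - 3 * πk) * (Tc (n, β)).card ≤ 4 / 5 * (C + 5) * d := by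
        refine (mul_le_mul_of_nonneg_right h5 (Nat.cast_nonneg _)).trans (h4.trans (h2.trans ?_))
        have h9 : (1 - 3 * πk) / 10 ^ 8 * (d : ℝ) ≤ d := by
          have : (1 - 3 * πk) / 10 ^ 8 ≤ 1 := by
            rw [div_le_one (by norm_num)]
            linarith
          nlinarith
        nlinarith
      have hC5 : 0 < C + 5 := by linarith
      have h9 : (Tc (n, β)).card * (10 ^ 4 * (C + 5)) ≤ 4 / 5 * (C + 5) * d * (1 - 3 * πk) := by
        have := mul_le_mul_of_nonneg_right h8 hπ3.le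
        have e1 : 10 ^ 4 * (C + 5) / (1 - 3 * πk) * (Tc (n, β)).card * (1 - 3 * πk) =
            (Tc (n, β)).card * (10 ^ 4 * (C + 5)) := by
          field_simp
        rwa [e1] at this
      have h10 : ((Tc (n, β)).card : ℝ) * 10 ^ 4 ≤ 4 / 5 * d * (1 - 3 * πk) := by
        refine le_of_mul_le_mul_right ?_ hC5
        calc ((Tc (n, β)).card : ℝ) * 10 ^ 4 * (C + 5) =
            (Tc (n, β)).card * (10 ^ 4 * (C + 5)) := by ring
          _ ≤ 4 / 5 * (C + 5) * d * (1 - 3 * πk) := h9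
          _ = 4 / 5 * d * (1 - 3 * πk) * (C + 5) := by ring
      linarith
    have hsub : (A.Q j).filter (fun b => ∃ v : Ts X.P n, ptn X.P n v = j ∧
        b ∈ Fp (xt G X) X t1 n v) ⊆ Tc (n, false) ∪ Tc (n, true) := by
      intro b hb
      obtain ⟨hb1, v, hv, hb2⟩ := mem_filter.1 hb
      have hold : b ∉ Ft (xt G X) t v.1 := by
        intro hcon
        have h1 := hN.rQ n (Or.inr hn) v
        have h2 : X.P.pt v.1 = j := hv
        rw [h2] at h1
        exact disjoint_left.1 h1 hcon hb1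
      have hin : R.In v.1 := ⟨v.2.1, by rw [v.2.2]; exact hn⟩
      have h1 := hI.gain v.1 hin b hb2 hold
      have h2 : R.sd v.1 = (n, X.P.sd v.1) := by
        show (X.P.pc v.1, X.P.sd v.1) = (n, X.P.sd v.1)
        rw [v.2.2]
      rw [h2] at h1
      cases hs : X.P.sd v.1
      · rw [hs] at h1
        exact mem_union_left _ h1
      · rw [hs] at h1
        exact mem_union_right _ h1
    have hcard : (((A.Q j).filter (fun b => ∃ v : Ts X.P n, ptn X.P n v = j ∧
        b ∈ Fp (xt G X) X t1 n v)).card : ℝ) ≤ (Tc (n, false)).card + (Tc (n, true)).card := by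
      exact_mod_cast (card_le_card hsub).trans (card_union_le _ _)
    have h1 := htc false
    have h2 := htc true
    have h3 := (hA.Qc j).1
    linarith
  · -- ldR
    intro n hn β b
    have h1 : ∀ β, (R.U t (n, β) b : ℝ) ≤ 120 * (S (X.sc n)).θ * d := by
      intro β
      rw [hR, U_ub t hn β b, Pool.Agent.Work.MP_db9399_rg_helper30.ub_eq]
      have h2 := hN.ld n (Or.inr hn) b
      rw [Pool.Agent.Work.MP_db9399_rg_helper30.us_eq] at h2
      have h3 : (su G X t n β b : ℝ) ≤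
          ((su G X t n false b + su G X t n true b : ℕ) : ℝ) := by
        have : su G X t n β b ≤ su G X t n false b + su G X t n true b := by
          cases β <;> omega
        exact_mod_cast this
      have h4 := hdlt n hn β b
      have h5 := hL (X.sc n)
      rw [Nat.cast_add]
      linarith
    have h2 := hI.mx (n, β) b
    have h3 : R.U t1 (n, β) b ≤ max (R.U t (n, β) b) (R.U t (n, !β) b) :=
      (le_max_left _ _).trans h2
    have h4 : (R.U t1 (n, β) b : ℝ) ≤ max (R.U t (n, β) b : ℝ) (R.U t (n, !β) b : ℝ) := by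
      exact_mod_cast h3
    rw [← U_ub (C := C) (πk := πk) t1 hn β b, ← hR]
    exact h4.trans (max_le (h1 β) (h1 (!β)))
  · -- excR
    intro n hn β
    have h1 := hphi (fun _ x => x - 8) (fun b x y h => Nat.sub_le_sub_right h 8)
      (fun b c x y h => by
        show y + 1 - 8 + (x - 8) ≤ x + 1 - 8 + (y - 8)
        omega) n hn β
    have h2 := no_exc (m := m) (m2 := m2) (pr := pr) hD hS hd1 hN hn β
    have h3 : ((∑ b ∈ range (d + 2), (no G X t1 (dlt G d X m m2 pr) n β b - 8) : ℕ) : ℝ) ≤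
        ((∑ b ∈ range (d + 2), (no G X t (dlt G d X m m2 pr) n β b - 8) : ℕ) : ℝ) := by
      exact_mod_cast h1
    have h4 := hθ8' n
    have h5 := hsV n hn β
    have h6 := hpV n hn β
    have h7 : (1 - 3 * πk) / 10 ^ 8 * (d : ℝ) ≤ (1 - 3 * πk) / 10 ^ 8 * (2 * (sV X.P n β).card) :=
      mul_le_mul_of_nonneg_left (by linarith) (by positivity)
    rw [h6] at h2 ⊢
    have h8 : (1 - 3 * πk) / 10 ^ 8 * (2 * ((sV X.P n β).card : ℝ)) =
      2 / 10 ^ 8 * ((1 - 3 * πk) * (sV X.P n β).card) := by ring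
    have h9 : 2 * ((1 - 3 * πk) / 10 ^ 7 * (2 * ((sV X.P n β).card : ℝ))) =
      4 / 10 ^ 7 * ((1 - 3 * πk) * (sV X.P n β).card) := by ring
    have h10 : 3 * (1 - 3 * πk) / 10 ^ 7 * (2 * ((sV X.P n β).card : ℝ)) =
      6 / 10 ^ 7 * ((1 - 3 * πk) * (sV X.P n β).card) := by ring
    have h11 : 0 ≤ (1 - 3 * πk) * ((sV X.P n β).card : ℝ) := by positivity
    rw [h9] at h2
    rw [h8] at h7
    rw [h10]
    linarith
  · -- supR
    intro n hn β b
    have hnn : (0 : ℝ) ≤ (d : ℝ) ^ (-c') * d + 4 * (d : ℝ) ^ (1 / 100 : ℝ) := by positivity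
    have h200 : (d : ℝ) ^ (1 / 200 : ℝ) ≤ (d : ℝ) ^ (1 / 100 : ℝ) :=
      Real.rpow_le_rpow_of_exponent_le hdR (by norm_num)
    have h1 : ∀ (s : Fin N × Bool) (b : ℕ), R.nd t s b ≤
        ⌊(d : ℝ) ^ (-c') * d + 4 * (d : ℝ) ^ (1 / 100 : ℝ)⌋₊ := by
      rintro ⟨n', β'⟩ b
      by_cases hn' : X.P.ty n' = Ty.B
      · refine Nat.le_floor ?_
        rw [hR, nd_no t hn' β' b]
        have e1 : ((no G X t (dlt G d X m m2 pr) n' β' b : ℕ) : ℝ) ≤
            ((need (Fp (xt G X) X t n') (sdn X.P n') β' b : ℕ) : ℝ) +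
              (dlt G d X m m2 pr n' (!β') b : ℝ) := by
          exact_mod_cast no_le G X t (dlt G d X m m2 pr) n' β' b
        have e2 := hdlt n' hn' (!β') b
        have e3 : ((need (Fp (xt G X) X t n') (sdn X.P n') β' b : ℕ) : ℝ) ≤
            2 * (d : ℝ) ^ (1 / 100 : ℝ) := by
          by_cases hb : b < d + 2
          · have f1 := need_sgp G X t n' β' b
            have f2 : ((need (Fp (xt G X) X t n') (sdn X.P n') β' b : ℕ) : ℝ) ≤
                |((sgp (Fp (xt G X) X t n') (sdn X.P n') (ptn X.P n') false b : ℤ) : ℝ)| +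
                |((sgp (Fp (xt G X) X t n') (sdn X.P n') (ptn X.P n') true b : ℤ) : ℝ)| := by
              rw [← Int.cast_abs, ← Int.cast_abs]
              exact_mod_cast f1
            have f3 := hP.sup n' (Or.inr hn') false b (mem_range.2 hb)
            have f4 := hP.sup n' (Or.inr hn') true b (mem_range.2 hb)
            linarith
          · rw [need_large hP.lt n' β' (by omega), Nat.cast_zero]
            positivity
        linarith
      · rw [hR, nd_zero hD t hn' β' b]
        exact Nat.zero_le _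
    have h2 := hI.sup _ h1 (n, β) b
    rw [hR, nd_no t1 hn β b] at h2
    have h3 : ((no G X t1 (dlt G d X m m2 pr) n β b : ℕ) : ℝ) ≤
        (⌊(d : ℝ) ^ (-c') * d + 4 * (d : ℝ) ^ (1 / 100 : ℝ)⌋₊ : ℝ) := by exact_mod_cast h2
    exact h3.trans (Nat.floor_le hnn)
  · -- totR
    intro n hn β
    have h1 := hphi (fun _ x => x) (fun b x y h => h)
      (fun b c x y h => by
        show y + 1 + x ≤ x + 1 + y
        omega) n hn β
    have h2 := no_tot (m := m) (m2 := m2) (pr := pr) hD hS hd1 hN hn β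
    have h3 : ((∑ b ∈ range (d + 2), no G X t1 (dlt G d X m m2 pr) n β b : ℕ) : ℝ) ≤
        ((∑ b ∈ range (d + 2), no G X t (dlt G d X m m2 pr) n β b : ℕ) : ℝ) := by
      exact_mod_cast h1
    have h4 := hθ8' n
    have h5 := hsV n hn β
    have h6 : (1 - 3 * πk) / 10 ^ 8 * (d : ℝ) ≤ 1 / 10 ^ 8 * d :=
      mul_le_mul_of_nonneg_right (div_le_div_of_nonneg_right hπ4 (by norm_num)) hdp.le
    linarith
  · -- negR
    intro n hn j
    have h1 := hphi (fun b x => if b ∈ A.Q j then x else x - (KX4 C πk - 1))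
      (fun b x y h => by
        show (if b ∈ A.Q j then x else x - (KX4 C πk - 1)) ≤
          if b ∈ A.Q j then y else y - (KX4 C πk - 1)
        split_ifs <;> omega)
      (fun b c x y h => by
        show (if c ∈ A.Q j then y + 1 else y + 1 - (KX4 C πk - 1)) +
          (if b ∈ A.Q j then x else x - (KX4 C πk - 1)) ≤
          (if b ∈ A.Q j then x + 1 else x + 1 - (KX4 C πk - 1)) +
          (if c ∈ A.Q j then y else y - (KX4 C πk - 1))
        split_ifs <;> omega) n hn false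
    have hsubQ := hA.Qlt j
    have h2 : ∑ b ∈ A.Q j, no G X t1 (dlt G d X m m2 pr) n false b ≤
        ∑ b ∈ range (d + 2), (if b ∈ A.Q j then no G X t1 (dlt G d X m m2 pr) n false b
          else no G X t1 (dlt G d X m m2 pr) n false b - (KX4 C πk - 1)) := by
      calc ∑ b ∈ A.Q j, no G X t1 (dlt G d X m m2 pr) n false b =
          ∑ b ∈ A.Q j, (if b ∈ A.Q j then no G X t1 (dlt G d X m m2 pr) n false b
          else no G X t1 (dlt G d X m m2 pr) n false b - (KX4 C πk - 1)) :=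
            sum_congr rfl fun b hb => by rw [if_pos hb]
        _ ≤ _ := sum_le_sum_of_subset hsubQ
    have h3 : ∑ b ∈ range (d + 2), (if b ∈ A.Q j then no G X t (dlt G d X m m2 pr) n false b
          else no G X t (dlt G d X m m2 pr) n false b - (KX4 C πk - 1)) ≤
        ∑ b ∈ A.Q j, need (Fp (xt G X) X t n) (sdn X.P n) false b +
        (∑ b ∈ range (d + 2), dlt G d X m m2 pr n true b +
          ∑ b ∈ range (d + 2), (no G X t (dlt G d X m m2 pr) n false b - 8)) := by
      have e1 : ∑ b ∈ A.Q j, need (Fp (xt G X) X t n) (sdn X.P n) false b =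
          ∑ b ∈ range (d + 2), if b ∈ A.Q j then
            need (Fp (xt G X) X t n) (sdn X.P n) false b else 0 := by
        rw [← sum_filter]
        refine sum_congr ?_ fun _ _ => rfl
        ext b
        rw [mem_filter]
        exact ⟨fun h => ⟨hsubQ h, h⟩, fun h => h.2⟩
      rw [e1, ← sum_add_distrib, ← sum_add_distrib]
      refine sum_le_sum fun b _ => ?_
      have e2 := no_le G X t (dlt G d X m m2 pr) n false b
      rw [Bool.not_false] at e2
      split_ifs <;> omega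
    have h4 := h2.trans (h1.trans h3)
    have h5 : ((∑ b ∈ A.Q j, no G X t1 (dlt G d X m m2 pr) n false b : ℕ) : ℝ) ≤
        ((∑ b ∈ A.Q j, need (Fp (xt G X) X t n) (sdn X.P n) false b : ℕ) : ℝ) +
        (((∑ b ∈ range (d + 2), dlt G d X m m2 pr n true b : ℕ) : ℝ) +
          ((∑ b ∈ range (d + 2), (no G X t (dlt G d X m m2 pr) n false b - 8) : ℕ) : ℝ)) := by
      exact_mod_cast h4
    have h6 : ((∑ b ∈ A.Q j, need (Fp (xt G X) X t n) (sdn X.P n) false b : ℕ) : ℝ) ≤
        (3 / 5 + 1 / 400 * (sV X.P n false).card / d) * (A.Q j).card := by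
      rw [Nat.cast_sum]
      refine le_trans (le_of_eq ?_) (hN.neg n hn j)
      exact sum_congr rfl fun b hb => need_Q hN hn j hb
    have h7 := dlt_sum (m := m) (m2 := m2) (pr := pr) hD hS hd1 n true
    have h8 := no_exc (m := m) (m2 := m2) (pr := pr) hD hS hd1 hN hn false
    have h9 := hθ8' n
    have h10 := hsV n hn false
    rw [hpV n hn false] at h8
    have h11 := (hA.Qc j).1
    set s := ((sV X.P n false).card : ℝ) with hsdef
    set q := ((A.Q j).card : ℝ) with hqdef
    have hs0 : 0 ≤ s := Nat.cast_nonneg _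
    have hq0 : 0 ≤ q := Nat.cast_nonneg _
    -- the slack
    have h12 : (3 / 5 + s / (350 * d)) * q = (3 / 5 + 1 / 400 * s / d) * q +
        1 / 2800 * (s / d) * q := by
      field_simp
      ring
    have h13 : (1 - 3 * πk) * s / 280000 ≤ 1 / 2800 * (s / d) * q := by
      have e1 : (1 - 3 * πk) / 100 * d * (s / d) ≤ q * (s / d) :=
        mul_le_mul_of_nonneg_right h11 (by positivity)
      have e2 : (1 - 3 * πk) / 100 * d * (s / d) = (1 - 3 * πk) / 100 * s := by
        field_simp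
      rw [e2] at e1
      linarith
    have h14 : (1 - 3 * πk) / 10 ^ 8 * (d : ℝ) ≤ 2 / 10 ^ 8 * ((1 - 3 * πk) * s) := by
      have : (1 - 3 * πk) / 10 ^ 8 * (d : ℝ) ≤ (1 - 3 * πk) / 10 ^ 8 * (2 * s) :=
        mul_le_mul_of_nonneg_left (by linarith) (by positivity)
      linarith
    have h15 : 0 ≤ (1 - 3 * πk) * s := by positivity
    have h16 : 2 * ((1 - 3 * πk) / 10 ^ 7 * (2 * s)) = 4 / 10 ^ 7 * ((1 - 3 * πk) * s) := by ring
    rw [h16] at h8
    rw [h12]
    linarith
  · -- tameR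
    intro v w b hT hb hv hw h1 h2
    have e : ∀ (x : V) (b : ℕ), InT X Ty.B x → R.nd t1 (R.sd x) b =
        no G X t1 (dlt G d X m m2 pr) (X.P.pc x) (X.P.sd x) b := fun x b hx => by
      rw [hR]
      exact nd_no t1 hx.2 (X.P.sd x) b
    have h3 := hTame v w b hT hb hv hw trivial trivial
      (by rw [e v b hT.2.1]; exact h1) (by rw [e w b hT.2.2]; exact h2)
    rw [e v b hT.2.1, e w b hT.2.2, e v _ hT.2.1, e w _ hT.2.2] at h3
    exact h3

end Pool.Agent.Work.MP_db9399_rg_helper54
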