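import Pool.Agent.Work.MP_db9399_rg_helper30.V24
import Pool.Agent.Work.MP_db9399_rec_helper38.Core

/-!
# MP_db9399, all scales, block RGX4, part RECX (helper54): preparations
-/

set_option autoImplicit false

namespace Pool.Agent.Work.MP_db9399_rg_helper54

open Finset Classical
open Pool.Agent.Work.MP_db9399_all (nb)
open Pool.Agent.Work.MP_db9399_lt (us)
open Pool.Agent.Work.MP_db9399_da (Pcs Ty pV sV Ts sdn ptn sgp sg need thin sid qtr)
open Pool.Agent.Work.MP_db9399_xf
open Pool.Agent.Work.MP_db9399_x4 (ub no so NuN NuB KX4 PreX4)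
open Pool.Agent.Work.MP_db9399_iv_helper38
open Pool.Agent.Work.MP_db9399_rec_helper38
open Pool.Agent.Work.MP_db9399_rg_helper30 (su)

universe u

section
variable {V : Type u} [Fintype V] {N J : ℕ}

omit [Fintype V] in
/-- the graph of the T-edges -/
def TG (G : SimpleGraph V) (X : XD V N J) : SimpleGraph V where
  Adj v w := Te G X v w
  symm := ⟨fun _ _ h => ⟨h.1.symm, h.2.2, h.2.1⟩⟩
  loopless := ⟨fun v h => (thin G X.P).loopless.irrefl v h.1⟩

/-- the situation of REC -/
noncomputable def RS (C πk : ℝ) (G : SimpleGraph V) (d : ℕ) (X : XD V N J) (m m2 : V → ℕ)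
    (pr : V → V) : Sit V (Fin N × Bool) where
  Gr := xt G X
  T := TG G X
  N := d + 2
  K := KX4 C πk
  al := fun _ _ => True
  In := InT X Ty.B
  sd := fun v => (X.P.pc v, X.P.sd v)
  op := fun s => (s.1, !s.2)
  δ := fun s b => dlt G d X m m2 pr s.1 s.2 b

theorem rs_ok (C πk : ℝ) (G : SimpleGraph V) (d : ℕ) (X : XD V N J) (m m2 : V → ℕ)
    (pr : V → V) : (RS C πk G d X m m2 pr).Ok where
  TG := fun v w h => by
    have h' : Te G X v w := h
    refine ⟨h'.1, fun hl => ?_⟩
    have h1 := hl.1.1.2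
    rw [h'.2.1.2] at h1
    exact absurd h1 (by decide)
  Ti := fun v w h => by
    have h' : Te G X v w := h
    refine ⟨h'.2.1, h'.2.2, fun he => ?_⟩
    have he' : (X.P.pc v, X.P.sd v) = (X.P.pc w, !X.P.sd w) := he
    obtain ⟨h1, h2⟩ := Prod.mk.inj he'
    refine h'.1.2 ⟨h'.1.1, h'.2.1.1, h'.2.2.1, h1, fun _ h3 => ?_⟩
    rw [h3] at h2
    cases hs : X.P.sd w <;> rw [hs] at h2 <;> exact absurd h2 (by decide)
  oo := fun s => by
    show ((s.1, !!s.2) : Fin N × Bool) = s
    rw [Bool.not_not]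
  on := fun s he => by
    have h2 : (!s.2) = s.2 := congrArg Prod.snd he
    cases hs : s.2 <;> rw [hs] at h2 <;> exact absurd h2 (by decide)
  K4 := by
    have := Pool.Agent.Work.MP_db9399_rg_helper30.KX4_ge C πk
    show 4 ≤ KX4 C πk
    omega

variable {G : SimpleGraph V} {d : ℕ} {X : XD V N J} {m m2 : V → ℕ} {pr : V → V}
  {t : V → V → ℕ} {C πk : ℝ}

theorem U_ub (t : V → V → ℕ) {n : Fin N} (hn : X.P.ty n = Ty.B) (β : Bool) (b : ℕ) :
    (RS C πk G d X m m2 pr).U t (n, β) b = ub G X t (dlt G d X m m2 pr) n β b := by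
  unfold Sit.U ub
  congr 1
  refine congrArg Finset.card ?_
  ext v
  simp only [mem_filter, mem_univ, true_and, mem_sV, RS, InT, Prod.mk.injEq]
  constructor
  · rintro ⟨⟨h1, _⟩, ⟨h2, h3⟩, h4⟩
    exact ⟨⟨h1, h2, h3⟩, h4⟩
  · rintro ⟨⟨h1, h2, h3⟩, h4⟩
    exact ⟨⟨h1, by rw [h2]; exact hn⟩, ⟨h2, h3⟩, h4⟩

theorem nd_no (t : V → V → ℕ) {n : Fin N} (hn : X.P.ty n = Ty.B) (β : Bool) (b : ℕ) :
    (RS C πk G d X m m2 pr).nd t (n, β) b = no G X t (dlt G d X m m2 pr) n β b := by
  unfold Sit.nd no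
  have h : (RS C πk G d X m m2 pr).op (n, β) = (n, !β) := rfl
  rw [h, U_ub t hn, U_ub t hn]

variable {g z θk θ' η a τ : ℝ} {M : ℕ} {S : Fin J → Scl}

theorem dlt_zero (D : PcD C g z θk θ' η a M S G d X) {n : Fin N} (hn : X.P.ty n ≠ Ty.B)
    (β : Bool) (b : ℕ) : dlt G d X m m2 pr n β b = 0 := by
  unfold dlt
  have h1 : univ.filter (fun a => Cvr G X d n β a ∧ mo X m m2 pr a = b) = ∅ :=
    filter_eq_empty_iff.2 fun a _ h => hn h.1.2.1
  have h2 : univ.filter (fun w => X.P.rg w = some (n, false) ∧ m (pr w) = b) = ∅ :=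
    filter_eq_empty_iff.2 fun w _ h => hn (D.rgT w n false h.1).2
  rw [h1, h2]
  simp

theorem nd_zero (D : PcD C g z θk θ' η a M S G d X) (t : V → V → ℕ) {n : Fin N}
    (hn : X.P.ty n ≠ Ty.B) (β : Bool) (b : ℕ) :
    (RS C πk G d X m m2 pr).nd t (n, β) b = 0 := by
  have hU : ∀ β, (RS C πk G d X m m2 pr).U t (n, β) b = 0 := by
    intro β
    unfold Sit.U
    refine Nat.add_eq_zero_iff.2 ⟨?_, dlt_zero D hn β b⟩
    rw [card_eq_zero]
    refine eq_empty_of_forall_notMem fun v h => hn ?_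
    simp only [mem_filter, mem_univ, true_and] at h
    have h2 : InT X Ty.B v := h.1
    have h3 : (X.P.pc v, X.P.sd v) = (n, β) := h.2.1
    rw [← (Prod.mk.inj h3).1]
    exact h2.2
  unfold Sit.nd
  have h : (RS C πk G d X m m2 pr).op (n, β) = (n, !β) := rfl
  rw [h, hU, hU]

/-! ### quarters -/

/-- number of the vertices of the quarter with the colour `b` -/
noncomputable def qu (G : SimpleGraph V) (X : XD V N J) (t : V → V → ℕ) (n : Fin N) (β i : Bool)
    (b : ℕ) : ℕ := ((sV X.P n β).filter (fun v => X.P.pt v = i ∧ b ∈ Ft (xt G X) t v)).card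

theorem qtr_us (G : SimpleGraph V) (X : XD V N J) (t : V → V → ℕ) (n : Fin N) (β i : Bool)
    (b : ℕ) (I : DecidableEq (Ts X.P n)) :
    (@Inter.inter (Finset (Ts X.P n)) (@Finset.instInter _ I) (qtr (sdn X.P n) (ptn X.P n) β i)
      (us (Fp (xt G X) X t n) b)).card = qu G X t n β i b := by
  unfold qu
  rw [← card_image_of_injective _ Subtype.val_injective]
  congr 1
  ext v
  simp only [mem_image, mem_inter, mem_us, Fp, mem_filter, mem_sV]
  constructor
  · rintro ⟨x, ⟨h1, h2⟩, rfl⟩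
    have h3 : X.P.sd x.1 = β ∧ X.P.pt x.1 = i := (mem_filter.1 h1).2
    exact ⟨⟨x.2.1, x.2.2, h3.1⟩, h3.2, h2⟩
  · rintro ⟨⟨h0, h1, h2⟩, h3, h4⟩
    exact ⟨⟨v, h0, h1⟩, ⟨mem_filter.2 ⟨mem_univ _, h2, h3⟩, h4⟩, rfl⟩

theorem sgp_eq (G : SimpleGraph V) (X : XD V N J) (t : V → V → ℕ) (n : Fin N) (i : Bool)
    (b : ℕ) : sgp (Fp (xt G X) X t n) (sdn X.P n) (ptn X.P n) i b
      = (qu G X t n false i b : ℤ) - (qu G X t n true i b : ℤ) := by
  unfold sgp
  rw [qtr_us, qtr_us]

theorem su_qu (G : SimpleGraph V) (X : XD V N J) (t : V → V → ℕ) (n : Fin N) (β : Bool)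
    (b : ℕ) : su G X t n β b = qu G X t n β false b + qu G X t n β true b := by
  unfold su qu
  rw [← card_union_of_disjoint]
  · congr 1
    ext v
    simp only [mem_union, mem_filter]
    constructor
    · rintro ⟨h1, h2⟩
      cases hp : X.P.pt v
      · exact Or.inl ⟨h1, rfl, h2⟩
      · exact Or.inr ⟨h1, rfl, h2⟩
    · rintro (⟨h1, _, h2⟩ | ⟨h1, _, h2⟩) <;> exact ⟨h1, h2⟩
  · rw [disjoint_left]
    intro v hv hv'
    have h1 := (mem_filter.1 hv).2.1
    have h2 := (mem_filter.1 hv').2.1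
    rw [h1] at h2
    exact absurd h2 (by decide)

/-- need with offset -/
theorem no_le (G : SimpleGraph V) (X : XD V N J) (t : V → V → ℕ) (δ : Fin N → Bool → ℕ → ℕ)
    (n : Fin N) (β : Bool) (b : ℕ) :
    no G X t δ n β b ≤ need (Fp (xt G X) X t n) (sdn X.P n) β b + δ n (!β) b := by
  rw [Pool.Agent.Work.MP_db9399_rg_helper30.need_eq]
  unfold no
  rw [Pool.Agent.Work.MP_db9399_rg_helper30.ub_eq, Pool.Agent.Work.MP_db9399_rg_helper30.ub_eq]
  omega

/-- the need is at most the sum of the absolute values in the parts -/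
theorem need_sgp (G : SimpleGraph V) (X : XD V N J) (t : V → V → ℕ) (n : Fin N) (β : Bool)
    (b : ℕ) : ((need (Fp (xt G X) X t n) (sdn X.P n) β b : ℕ) : ℤ) ≤
      |sgp (Fp (xt G X) X t n) (sdn X.P n) (ptn X.P n) false b| +
        |sgp (Fp (xt G X) X t n) (sdn X.P n) (ptn X.P n) true b| := by
  rw [Pool.Agent.Work.MP_db9399_rg_helper30.need_eq, sgp_eq, sgp_eq, su_qu, su_qu]
  have h1 := le_abs_self ((qu G X t n false false b : ℤ) - (qu G X t n true false b : ℤ))
  have h2 := neg_abs_le ((qu G X t n false false b : ℤ) - (qu G X t n true false b : ℤ))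
  have h3 := le_abs_self ((qu G X t n false true b : ℤ) - (qu G X t n true true b : ℤ))
  have h4 := neg_abs_le ((qu G X t n false true b : ℤ) - (qu G X t n true true b : ℤ))
  cases β <;> simp only [Bool.not_false, Bool.not_true] <;> omega

/-- no colours above `d + 2` -/
theorem need_large (hlt : ∀ v w, (xt G X).Adj v w → t v w < d + 2) (n : Fin N) (β : Bool) {b : ℕ}
    (hb : d + 2 ≤ b) : need (Fp (xt G X) X t n) (sdn X.P n) β b = 0 := by
  rw [Pool.Agent.Work.MP_db9399_rg_helper30.need_eq]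
  have h : ∀ β, su G X t n β b = 0 := by
    intro β
    unfold su
    rw [card_eq_zero]
    refine filter_eq_empty_iff.2 fun v _ h => ?_
    obtain ⟨w, hw, h2⟩ := mem_Ft.1 h
    have := hlt v w hw
    omega
  rw [h, h]

/-! ### the offsets -/

theorem rgcvr (D : PcD C g z θk θ' η a M S G d X) (hS : ∀ s, Sml πk τ (S s)) (hd : 1 ≤ d)
    {w : V} {n : Fin N} {β : Bool} (h : X.P.rg w = some (n, β)) : Cvr G X d n β w := by
  have h1 := D.rgT w n β h
  have h2 := (D.rgd w n β h).2
  refine ⟨h1.1, h1.2, lt_of_le_of_lt h2 ?_⟩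
  have h3 := (hS (X.sc n)).ζ1
  have h4 : (1 : ℝ) ≤ d := by exact_mod_cast hd
  nlinarith

theorem zz3 (hS : ∀ s, Sml πk τ (S s)) (s : Fin J) : (S s).ζ ≤ 1 / 1000 :=
  (hS s).ζ1.trans (by norm_num)

/-- the offsets are small -/
theorem dlt_le (D : PcD C g z θk θ' η a M S G d X) (hS : ∀ s, Sml πk τ (S s)) (hd : 1 ≤ d)
    (hU : AuxP G d X t m m2 pr)
    (ms : ∀ n β b, ((univ.filter (fun w => Cvr G X d n β w ∧ m w = b)).card : ℝ) ≤
      (d : ℝ) ^ (1 / 200 : ℝ)) {n : Fin N} (hB : X.P.ty n = Ty.B) (β : Bool) (b : ℕ) :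
    (dlt G d X m m2 pr n β b : ℝ) ≤ 2 * (d : ℝ) ^ (1 / 200 : ℝ) + a * d := by
  have hpos : (0 : ℝ) ≤ (d : ℝ) ^ (1 / 200 : ℝ) := by positivity
  -- partners
  have h1 : ((univ.filter fun a => Cvr G X d n β a ∧ PT X pr a).card : ℝ) ≤ a * d := by
    refine le_trans ?_ (D.rgc n hB)
    have h2 : (univ.filter fun a => Cvr G X d n β a ∧ PT X pr a) ⊆
        (univ.filter fun w => X.P.rg w = some (n, false)).image pr := by
      intro a ha
      obtain ⟨h2, w, n', h3, h4⟩ := (mem_filter.1 ha).2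
      have h5 := rgcvr D hS hd (hU.prr w n' h3)
      rw [h4] at h5
      obtain ⟨rfl, _⟩ := Pool.Agent.Work.MP_db9399_rg_helper42.g6c D hd (zz3 hS _) (zz3 hS _) h2 h5
      exact mem_image.2 ⟨w, mem_filter.2 ⟨mem_univ _, h3⟩, h4⟩
    exact_mod_cast (card_le_card h2).trans card_image_le
  have h2 : ((univ.filter fun a => Cvr G X d n β a ∧ mo X m m2 pr a = b).card : ℝ) ≤
      (d : ℝ) ^ (1 / 200 : ℝ) + a * d := by
    have h3 : (univ.filter fun a => Cvr G X d n β a ∧ mo X m m2 pr a = b) ⊆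
        (univ.filter fun a => Cvr G X d n β a ∧ m a = b) ∪
        (univ.filter fun a => Cvr G X d n β a ∧ PT X pr a) := by
      intro a ha
      obtain ⟨h4, h5⟩ := (mem_filter.1 ha).2
      by_cases hp : PT X pr a
      · exact mem_union_right _ (mem_filter.2 ⟨mem_univ _, h4, hp⟩)
      · refine mem_union_left _ (mem_filter.2 ⟨mem_univ _, h4, ?_⟩)
        unfold mo at h5
        rwa [if_neg hp] at h5
    have h4 := (card_le_card h3).trans (card_union_le _ _)
    have h5 : ((univ.filter fun a => Cvr G X d n β a ∧ mo X m m2 pr a = b).card : ℝ) ≤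
        ((univ.filter fun a => Cvr G X d n β a ∧ m a = b).card : ℝ) +
        (univ.filter fun a => Cvr G X d n β a ∧ PT X pr a).card := by exact_mod_cast h4
    have := ms n β b
    linarith
  have h3 : ((univ.filter (fun w => X.P.rg w = some (n, false) ∧ m (pr w) = b)).card : ℝ) ≤
      (d : ℝ) ^ (1 / 200 : ℝ) := by
    refine le_trans ?_ (ms n true b)
    have h4 : (univ.filter (fun w => X.P.rg w = some (n, false) ∧ m (pr w) = b)).card ≤
        (univ.filter (fun w => Cvr G X d n true w ∧ m w = b)).card := by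
      refine card_le_card_of_injOn pr ?_ ?_
      · intro w hw
        obtain ⟨h5, h6⟩ := (mem_filter.1 hw).2
        exact mem_filter.2 ⟨mem_univ _, rgcvr D hS hd (hU.prr w n h5), h6⟩
      · intro w hw w' hw' he
        exact hU.pri w w' n (mem_filter.1 hw).2.1 (mem_filter.1 hw').2.1 he
    exact_mod_cast h4
  unfold dlt
  push_cast
  have h4 : ((if β = true then (univ.filter (fun w => X.P.rg w = some (n, false) ∧
      m (pr w) = b)).card else 0 : ℕ) : ℝ) ≤ (d : ℝ) ^ (1 / 200 : ℝ) := by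
    split_ifs
    · exact h3
    · rw [Nat.cast_zero]
      exact hpos
  push_cast at h4
  linarith

/-- the sum of the offsets -/
theorem dlt_sum (D : PcD C g z θk θ' η a M S G d X) (hS : ∀ s, Sml πk τ (S s)) (hd : 1 ≤ d)
    (n : Fin N) (β : Bool) : ((∑ b ∈ range (d + 2), dlt G d X m m2 pr n β b : ℕ) : ℝ) ≤
      4 * (S (X.sc n)).θ * d := by
  have h1 := Pool.Agent.Work.MP_db9399_rg_helper42.g6d D hd (n := n) (zz3 hS _) (hS _).θp.le
  have h2 : ∑ b ∈ range (d + 2), dlt G d X m m2 pr n β b ≤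
      2 * (univ.filter (fun w => ∃ β, Cvr G X d n β w)).card := by
    unfold dlt
    rw [sum_add_distrib]
    have h3 : ∑ b ∈ range (d + 2),
        (univ.filter (fun a => Cvr G X d n β a ∧ mo X m m2 pr a = b)).card ≤
        (univ.filter (fun w => ∃ β, Cvr G X d n β w)).card := by
      have e : ∀ b ∈ range (d + 2),
          (univ.filter (fun a => Cvr G X d n β a ∧ mo X m m2 pr a = b)).card =
          ((univ.filter (fun a => Cvr G X d n β a)).filter (fun a => mo X m m2 pr a = b)).card :=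
        fun b _ => by rw [filter_filter]
      rw [sum_congr rfl e, sum_card_fiberwise_eq_card_filter]
      refine (card_le_card (filter_subset _ _)).trans (card_le_card ?_)
      intro w hw
      exact mem_filter.2 ⟨mem_univ _, β, (mem_filter.1 hw).2⟩
    have h4 : ∑ b ∈ range (d + 2), (if β = true then
        (univ.filter (fun w => X.P.rg w = some (n, false) ∧ m (pr w) = b)).card else 0) ≤
        (univ.filter (fun w => ∃ β, Cvr G X d n β w)).card := by
      split_ifs
      · have e : ∀ b ∈ range (d + 2),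
            (univ.filter (fun w => X.P.rg w = some (n, false) ∧ m (pr w) = b)).card =
            ((univ.filter (fun w => X.P.rg w = some (n, false))).filter
              (fun w => m (pr w) = b)).card :=
          fun b _ => by rw [filter_filter]
        rw [sum_congr rfl e, sum_card_fiberwise_eq_card_filter]
        refine (card_le_card (filter_subset _ _)).trans (card_le_card ?_)
        intro w hw
        exact mem_filter.2 ⟨mem_univ _, false, rgcvr D hS hd (mem_filter.1 hw).2⟩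
      · simp
    omega
  have h3 : ((∑ b ∈ range (d + 2), dlt G d X m m2 pr n β b : ℕ) : ℝ) ≤
      2 * ((univ.filter (fun w => ∃ β, Cvr G X d n β w)).card : ℝ) := by exact_mod_cast h2
  linarith

/-! ### sizes -/

theorem sV_C (D : PcD C g z θk θ' η a M S G d X) {n : Fin N} (hB : X.P.ty n = Ty.B)
    (β : Bool) : ((sV X.P n β).card : ℝ) ≤ C * d := by
  obtain ⟨v, hv⟩ := D.bN n hB
  rw [Pool.Agent.Work.MP_db9399_rg_helper42.mem_pV] at hv
  obtain ⟨k, hk⟩ := Option.ne_none_iff_exists'.1 (D.cln v hv.1)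
  refine le_trans ?_ (D.clc k)
  have h : sV X.P n β ⊆ univ.filter (fun v => X.cq v = some k) := by
    intro w hw
    rw [mem_sV] at hw
    refine mem_filter.2 ⟨mem_univ _, ?_⟩
    rw [← hk]
    exact D.clp w v hw.1 hv.1 (by rw [hw.2.1, hv.2])
  exact_mod_cast card_le_card h

theorem pV_card (D : PcD C g z θk θ' η a M S G d X) {n : Fin N} (hB : X.P.ty n = Ty.B)
    (β : Bool) : (pV X.P n).card = 2 * (sV X.P n β).card := by
  rw [Pool.Agent.Work.MP_db9399_rg_helper42.pV_eq, card_union_of_disjoint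
    (Pool.Agent.Work.MP_db9399_rg_helper42.sV_disj X.P (by simp))]
  have := D.bE n hB
  cases β <;> omega

end

end Pool.Agent.Work.MP_db9399_rg_helper54
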