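import Pool.Agent.Work.MP_db9399_rg_helper54.RecA

/-!
# MP_db9399, all scales, block RGX4, part RECX (helper54)
-/

set_option autoImplicit false

namespace Pool.Agent.Work.MP_db9399_rg_helper54

open Finset Classical
open Pool.Agent.Work.MP_db9399_all (nb)
open Pool.Agent.Work.MP_db9399_lt (us)
open Pool.Agent.Work.MP_db9399_da (Pcs Ty pV sV Ts sdn ptn sgp sg need thin sid qtr)
open Pool.Agent.Work.MP_db9399_xf
open Pool.Agent.Work.MP_db9399_x4 (ub no so NuN NuB KX4 PreX4)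
open Pool.Agent.Work.MP_db9399_iv_helper38
open Pool.Agent.Work.MP_db9399_rec_helper38
open Pool.Agent.Work.MP_db9399_rg_helper30 (su)

universe u

theorem ev_pow {s : ℝ} (hs : 0 < s) (K : ℝ) : ∀ᶠ d : ℕ in Filter.atTop, K ≤ (d : ℝ) ^ s := by
  have h1 : Filter.Tendsto (fun d : ℕ => (d : ℝ) ^ s) Filter.atTop Filter.atTop :=
    (tendsto_rpow_atTop hs).comp tendsto_natCast_atTop_atTop
  exact h1.eventually_ge_atTop K

/-- the numbers for large `d` -/
theorem large {J : ℕ} (S : Fin J → Scl) {πk τ c' : ℝ} (hS : ∀ s, Sml πk τ (S s)) (hc : 0 < c') :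
    ∃ d0 : ℕ, 1 ≤ d0 ∧ ∀ d : ℕ, d0 ≤ d → ∀ s : Fin J,
      2 * (d : ℝ) ^ (1 / 200 : ℝ) + (d : ℝ) ^ (-c') * d ≤ 20 * (S s).θ * d := by
  have h1 : ∀ s : Fin J, ∀ᶠ d : ℕ in Filter.atTop,
      2 * (d : ℝ) ^ (1 / 200 : ℝ) + (d : ℝ) ^ (-c') * d ≤ 20 * (S s).θ * d := by
    intro s
    have hθ := (hS s).θp
    filter_upwards [ev_pow (show (0 : ℝ) < 199 / 200 by norm_num) (1 / (S s).θ),
      ev_pow hc (1 / (S s).θ), Filter.eventually_ge_atTop 1] with d h1 h2 h3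
    have hd : (0 : ℝ) < d := by exact_mod_cast h3
    have e1 : (d : ℝ) ^ (1 / 200 : ℝ) ≤ (S s).θ * d := by
      have e2 : (d : ℝ) = (d : ℝ) ^ (199 / 200 : ℝ) * (d : ℝ) ^ (1 / 200 : ℝ) := by
        rw [← Real.rpow_add hd]
        norm_num
      have e3 : 1 ≤ (S s).θ * (d : ℝ) ^ (199 / 200 : ℝ) := by
        rw [div_le_iff₀ hθ] at h1
        linarith
      have e4 : (0 : ℝ) ≤ (d : ℝ) ^ (1 / 200 : ℝ) := by positivity
      calc (d : ℝ) ^ (1 / 200 : ℝ) = 1 * (d : ℝ) ^ (1 / 200 : ℝ) := (one_mul _).symm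
        _ ≤ ((S s).θ * (d : ℝ) ^ (199 / 200 : ℝ)) * (d : ℝ) ^ (1 / 200 : ℝ) :=
            mul_le_mul_of_nonneg_right e3 e4
        _ = (S s).θ * d := by rw [mul_assoc, ← e2]
    have e5 : (d : ℝ) ^ (-c') ≤ (S s).θ := by
      rw [Real.rpow_neg hd.le, inv_le_comm₀ (by positivity) hθ, ← one_div]
      exact h2
    have e6 : (d : ℝ) ^ (-c') * d ≤ (S s).θ * d := mul_le_mul_of_nonneg_right e5 hd.le
    have e7 : 0 ≤ (S s).θ * d := by positivity
    linarith
  obtain ⟨d0, hd0⟩ := Filter.eventually_atTop.1 (Filter.eventually_all.2 h1)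
  exact ⟨max d0 1, le_max_right _ _, fun d hd s => hd0 d ((le_max_left _ _).trans hd) s⟩

section
variable {V : Type u} [Fintype V] {N J : ℕ}
variable {G : SimpleGraph V} {d : ℕ} {X : XD V N J} {m m2 : V → ℕ} {pr : V → V}
  {t : V → V → ℕ} {C πk : ℝ}
variable {g z θk θ' η a τ e : ℝ} {M : ℕ} {S : Fin J → Scl} {A : PalX} {c : V → ℕ}

/-- the colouring satisfies `Col` -/
theorem rs_col (hT : TcX η G d X A t) : (RS C πk G d X m m2 pr).Col t :=
  ⟨hT.sym, hT.lt, hT.inj, fun _ _ _ => trivial⟩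

/-- the colours at the vertices outside the pieces of type B do not change -/
theorem Ft_same {t1 : V → V → ℕ} (h : ∀ v w, ¬ Te G X v w → t1 v w = t v w) {v : V}
    (hv : ¬ InT X Ty.B v) : Ft (xt G X) t1 v = Ft (xt G X) t v := by
  unfold Ft
  refine image_congr fun w _ => ?_
  exact h v w fun hT => hv hT.2.1

theorem Fp_same {t1 : V → V → ℕ} (h : ∀ v w, ¬ Te G X v w → t1 v w = t v w) {n : Fin N}
    (hn : X.P.ty n ≠ Ty.B) : Fp (xt G X) X t1 n = Fp (xt G X) X t n := by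
  funext v
  refine Ft_same h fun hv => hn ?_
  rw [← v.2.2]
  exact hv.2

theorem sum_nat_cast_le {f g : ℕ → ℕ} {s : Finset ℕ} (h : ∀ b ∈ s, f b ≤ g b) :
    ((∑ b ∈ s, f b : ℕ) : ℝ) ≤ ((∑ b ∈ s, g b : ℕ) : ℝ) := by
  exact_mod_cast sum_le_sum h

/-- sum of the needs with offset -/
theorem no_tot (D : PcD C g z θk θ' η a M S G d X) (hS : ∀ s, Sml πk τ (S s)) (hd : 1 ≤ d)
    {l x q : ℝ} (hN : NuX l x (4 / 5) q S G d X A t) {n : Fin N} (hB : X.P.ty n = Ty.B)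
    (β : Bool) : ((∑ b ∈ range (d + 2), no G X t (dlt G d X m m2 pr) n β b : ℕ) : ℝ) ≤
      4 / 5 * (sV X.P n β).card + 4 * (S (X.sc n)).θ * d := by
  have h1 := hN.tot n hB β
  have h2 := dlt_sum (m := m) (m2 := m2) (pr := pr) D hS hd n (!β)
  have h3 : ((∑ b ∈ range (d + 2), no G X t (dlt G d X m m2 pr) n β b : ℕ) : ℝ) ≤
      ((∑ b ∈ range (d + 2), (need (Fp (xt G X) X t n) (sdn X.P n) β b +
        dlt G d X m m2 pr n (!β) b) : ℕ) : ℝ) :=
    sum_nat_cast_le fun b _ => no_le G X t _ n β b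
  rw [sum_add_distrib, Nat.cast_add] at h3
  linarith

/-- sum of the needs with offset above 8 -/
theorem no_exc (D : PcD C g z θk θ' η a M S G d X) (hS : ∀ s, Sml πk τ (S s)) (hd : 1 ≤ d)
    {l y x q : ℝ} (hN : NuX l x y q S G d X A t) {n : Fin N} (hB : X.P.ty n = Ty.B)
    (β : Bool) : ((∑ b ∈ range (d + 2), (no G X t (dlt G d X m m2 pr) n β b - 8) : ℕ) : ℝ) ≤
      2 * (x * (pV X.P n).card) + 4 * (S (X.sc n)).θ * d := by
  have h1 := hN.exc n (Or.inr hB)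
  have h2 := dlt_sum (m := m) (m2 := m2) (pr := pr) D hS hd n (!β)
  have h3 : ∀ b, ((no G X t (dlt G d X m m2 pr) n β b - 8 : ℕ) : ℝ) ≤
      max (|((sgp (Fp (xt G X) X t n) (sdn X.P n) (ptn X.P n) false b : ℤ) : ℝ)| - 4) 0 +
      max (|((sgp (Fp (xt G X) X t n) (sdn X.P n) (ptn X.P n) true b : ℤ) : ℝ)| - 4) 0 +
      (dlt G d X m m2 pr n (!β) b : ℝ) := by
    intro b
    have e1 := no_le G X t (dlt G d X m m2 pr) n β b
    have e2 := need_sgp G X t n β b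
    have e3 : ((need (Fp (xt G X) X t n) (sdn X.P n) β b : ℕ) : ℝ) ≤
        |((sgp (Fp (xt G X) X t n) (sdn X.P n) (ptn X.P n) false b : ℤ) : ℝ)| +
        |((sgp (Fp (xt G X) X t n) (sdn X.P n) (ptn X.P n) true b : ℤ) : ℝ)| := by
      rw [← Int.cast_abs, ← Int.cast_abs]
      exact_mod_cast e2
    have e4 : ((no G X t (dlt G d X m m2 pr) n β b : ℕ) : ℝ) ≤
        ((need (Fp (xt G X) X t n) (sdn X.P n) β b : ℕ) : ℝ) +
          (dlt G d X m m2 pr n (!β) b : ℝ) := by exact_mod_cast e1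
    have m1 := le_max_left
      (|((sgp (Fp (xt G X) X t n) (sdn X.P n) (ptn X.P n) false b : ℤ) : ℝ)| - 4) 0
    have m2' := le_max_right
      (|((sgp (Fp (xt G X) X t n) (sdn X.P n) (ptn X.P n) false b : ℤ) : ℝ)| - 4) 0
    have m3 := le_max_left
      (|((sgp (Fp (xt G X) X t n) (sdn X.P n) (ptn X.P n) true b : ℤ) : ℝ)| - 4) 0
    have m4 := le_max_right
      (|((sgp (Fp (xt G X) X t n) (sdn X.P n) (ptn X.P n) true b : ℤ) : ℝ)| - 4) 0
    have m5 : (0 : ℝ) ≤ (dlt G d X m m2 pr n (!β) b : ℝ) := Nat.cast_nonneg _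
    rcases le_total 8 (no G X t (dlt G d X m m2 pr) n β b) with h8 | h8
    · rw [Nat.cast_sub h8]
      push_cast
      linarith
    · rw [Nat.sub_eq_zero_of_le h8, Nat.cast_zero]
      positivity
  have h4 : ((∑ b ∈ range (d + 2), (no G X t (dlt G d X m m2 pr) n β b - 8) : ℕ) : ℝ) ≤
      ∑ b ∈ range (d + 2),
      (max (|((sgp (Fp (xt G X) X t n) (sdn X.P n) (ptn X.P n) false b : ℤ) : ℝ)| - 4) 0 +
      max (|((sgp (Fp (xt G X) X t n) (sdn X.P n) (ptn X.P n) true b : ℤ) : ℝ)| - 4) 0 +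
      (dlt G d X m m2 pr n (!β) b : ℝ)) := by
    rw [Nat.cast_sum]
    exact sum_le_sum fun b _ => h3 b
  rw [sum_add_distrib, sum_add_distrib] at h4
  have h5 := h1 false
  have h6 := h1 true
  rw [Nat.cast_sum] at h2
  linarith

/-- the needs of the colours of `A.Q j` at the side `false` -/
theorem need_Q {l x y q : ℝ} (hN : NuX l x y q S G d X A t) {n : Fin N} (hB : X.P.ty n = Ty.B)
    (j : Bool) {b : ℕ} (hb : b ∈ A.Q j) :
    ((need (Fp (xt G X) X t n) (sdn X.P n) false b : ℕ) : ℝ) =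
      max (-((sgp (Fp (xt G X) X t n) (sdn X.P n) (ptn X.P n) (!j) b : ℤ) : ℝ)) 0 := by
  have hz : ∀ β, qu G X t n β j b = 0 := by
    intro β
    unfold qu
    rw [card_eq_zero]
    refine eq_empty_of_forall_notMem fun v h => ?_
    simp only [mem_filter, mem_sV] at h
    obtain ⟨⟨h0, h1, _⟩, h3, h4⟩ := h
    have h5 := hN.rQ n (Or.inr hB) ⟨v, h0, h1⟩
    have h6 : b ∈ A.Q (X.P.pt v) := by rw [h3]; exact hb
    exact disjoint_left.1 h5 h4 h6
  have hsu : ∀ β, su G X t n β b = qu G X t n β (!j) b := by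
    intro β
    rw [su_qu]
    cases j
    · rw [hz β, zero_add]
      rfl
    · rw [hz β, add_zero]
      rfl
  rw [Pool.Agent.Work.MP_db9399_rg_helper30.need_eq, sgp_eq, hsu, hsu, Bool.not_false]
  rcases le_total (qu G X t n true (!j) b) (qu G X t n false (!j) b) with h | h
  · rw [Nat.sub_eq_zero_of_le h, Nat.cast_zero, max_eq_right]
    have : ((qu G X t n true (!j) b : ℕ) : ℝ) ≤ ((qu G X t n false (!j) b : ℕ) : ℝ) := by
      exact_mod_cast h
    push_cast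
    linarith
  · have : ((qu G X t n false (!j) b : ℕ) : ℝ) ≤ ((qu G X t n true (!j) b : ℕ) : ℝ) := by
      exact_mod_cast h
    rw [Nat.cast_sub h, max_eq_left]
    · push_cast
      ring
    · push_cast
      linarith

end

end Pool.Agent.Work.MP_db9399_rg_helper54
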